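import Pool.Agent.PLX.StmtsB

/-!
# Squad PLX (MP_1fc801_co), row SLP: Solymosi in the plane
-/

set_option autoImplicit false

namespace Pool.Agent.PLX.H32

open Module

/-- the points of a symmetric set on a line through the origin are at most `2 m + 1`, with `m` the
number of those with positive real part -/
theorem card_half (S : Finset ℂ) (hS : ∀ u ∈ S, -u ∈ S) (t : ℝ) :
    (S.filter (fun u => u.im = t * u.re)).card ≤
      2 * ((S.filter (fun u => u.im = t * u.re)).filter (fun u => 0 < u.re)).card + 1 := by
  classical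
  have h1 : S.filter (fun u => u.im = t * u.re) ⊆
      insert 0 (((S.filter (fun u => u.im = t * u.re)).filter (fun u => 0 < u.re)) ∪
        ((S.filter (fun u => u.im = t * u.re)).filter (fun u => 0 < u.re)).image
          (fun x => -x)) := by
    intro x hx
    have h2 := Finset.mem_filter.1 hx
    simp only [Finset.mem_insert, Finset.mem_union, Finset.mem_image, Finset.mem_filter]
    rcases lt_trichotomy x.re 0 with h3 | h3 | h3
    · refine Or.inr (Or.inr ⟨-x, ⟨⟨hS x h2.1, ?_⟩, ?_⟩, neg_neg x⟩)
      · rw [Complex.neg_im, Complex.neg_re, h2.2]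
        ring
      · rw [Complex.neg_re]
        linarith
    · exact Or.inl (eq_zero_of_re h2.2 h3)
    · exact Or.inr (Or.inl ⟨h2, h3⟩)
  refine (Finset.card_le_card h1).trans ?_
  refine (Finset.card_insert_le _ _).trans ?_
  have h2 := Finset.card_union_le
    ((S.filter (fun u => u.im = t * u.re)).filter (fun u => 0 < u.re))
    (((S.filter (fun u => u.im = t * u.re)).filter (fun u => 0 < u.re)).image (fun x => -x))
  have h3 : (((S.filter (fun u => u.im = t * u.re)).filter (fun u => 0 < u.re)).image
      (fun x => -x)).card ≤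
      ((S.filter (fun u => u.im = t * u.re)).filter (fun u => 0 < u.re)).card :=
    Finset.card_image_le
  omega

/-- **SLP**. -/
theorem slp (sol : SolStmt) : SlpStmt := by
  classical
  intro S Θ q hneg hq hΘ
  have hcnt : (0 : ℝ) ≤ ((S ×ˢ S).image (fun p => p.1 + p.2)).card := Nat.cast_nonneg _
  rcases Nat.lt_or_ge Θ.card 2 with h2 | h2
  · have h3 : (Θ.card : ℝ) ≤ 1 := by
      have : Θ.card ≤ 1 := by omega
      exact_mod_cast this
    nlinarith [sq_nonneg q]
  · obtain ⟨n, hn⟩ : ∃ n, Θ.card = n + 1 := ⟨Θ.card - 1, by omega⟩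
    let o := Θ.orderEmbOfFin hn
    let t : ℕ → ℝ := fun i => if h : i < n + 1 then o ⟨i, h⟩ else 0
    have ht : ∀ i, ∀ h : i < n + 1, t i = o ⟨i, h⟩ := fun i h => dif_pos h
    have htm : ∀ i < n, t i < t (i + 1) := by
      intro i hi
      rw [ht i (by omega), ht (i + 1) (by omega)]
      exact o.strictMono (by simp [Fin.lt_def])
    have htΘ : ∀ i ≤ n, t i ∈ Θ := by
      intro i hi
      rw [ht i (by omega)]
      exact Finset.orderEmbOfFin_mem Θ hn _
    let U : ℕ → Finset ℂ := fun i =>
      (S.filter (fun u => u.im = t i * u.re)).filter (fun u => 0 < u.re)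
    have hU : ∀ i, ∀ x ∈ U i, x ∈ S ∧ x.im = t i * x.re ∧ 0 < x.re := by
      intro i x hx
      have h := Finset.mem_filter.1 hx
      have h' := Finset.mem_filter.1 h.1
      exact ⟨h'.1, h'.2, h.2⟩
    have hUc : ∀ i ≤ n, q / 3 ≤ (U i).card := by
      intro i hi
      have h1 := hΘ (t i) (htΘ i hi)
      have h3 := card_half S hneg (t i)
      have h4 : ((S.filter (fun u => u.im = t i * u.re)).card : ℝ) ≤
          2 * ((U i).card : ℝ) + 1 := by
        exact_mod_cast h3
      linarith
    -- the triples
    let T : Finset (Σ _ : ℕ, ℂ × ℂ) := (Finset.range n).sigma fun i => U i ×ˢ U (i + 1)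
    have hT : T.card ≤ ((S ×ˢ S).image (fun p => p.1 + p.2)).card := by
      refine Finset.card_le_card_of_injOn (fun p => p.2.1 + p.2.2) ?_ ?_
      · rintro ⟨i, x, y⟩ hp
        have hp' := Finset.mem_sigma.1 (Finset.mem_coe.1 hp)
        have hxy := Finset.mem_product.1 hp'.2
        have hx := hU i x hxy.1
        have hy := hU (i + 1) y hxy.2
        exact Finset.mem_coe.2 (Finset.mem_image.2
          ⟨(x, y), Finset.mem_product.2 ⟨hx.1, hy.1⟩, rfl⟩)
      · rintro ⟨i, x, y⟩ hp ⟨i', x', y'⟩ hp' heq
        have h1 := Finset.mem_sigma.1 (Finset.mem_coe.1 hp)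
        have h1' := Finset.mem_sigma.1 (Finset.mem_coe.1 hp')
        have hxy := Finset.mem_product.1 h1.2
        have hxy' := Finset.mem_product.1 h1'.2
        have hx := hU i x hxy.1
        have hy := hU (i + 1) y hxy.2
        have hx' := hU i' x' hxy'.1
        have hy' := hU (i' + 1) y' hxy'.2
        have heq' : x + y = x' + y' := heq
        obtain ⟨e1, e2, e3⟩ := sol n t htm i i' (Finset.mem_range.1 h1.1)
          (Finset.mem_range.1 h1'.1) x y x' y' hx.2.1 hx.2.2 hy.2.1 hy.2.2
          hx'.2.1 hx'.2.2 hy'.2.1 hy'.2.2 heq'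
        subst e1
        subst e2
        subst e3
        rfl
    have hTc : (n : ℝ) * (q / 3) ^ 2 ≤ T.card := by
      have h1 : T.card = ∑ i ∈ Finset.range n, (U i).card * (U (i + 1)).card := by
        rw [Finset.card_sigma]
        exact Finset.sum_congr rfl fun i _ => Finset.card_product _ _
      rw [h1]
      push_cast
      have h4 : ∑ i ∈ Finset.range n, (q / 3) ^ 2
          ≤ ∑ i ∈ Finset.range n, ((U i).card : ℝ) * ((U (i + 1)).card : ℝ) := by
        refine Finset.sum_le_sum fun i hi => ?_
        have hi' := Finset.mem_range.1 hi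
        rw [sq]
        exact mul_le_mul (hUc i (by omega)) (hUc (i + 1) (by omega)) (by linarith)
          (Nat.cast_nonneg _)
      rw [Finset.sum_const, Finset.card_range, nsmul_eq_mul] at h4
      exact h4
    have h5 : (T.card : ℝ) ≤ ((S ×ˢ S).image (fun p => p.1 + p.2)).card := by
      exact_mod_cast hT
    rw [hn]
    push_cast
    nlinarith [hTc, h5]

end Pool.Agent.PLX.H32
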