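import Pool.Agent.PLX.StmtsB

/-!
# Squad PLX (MP_1fc801_co), row THS: two fixed scales
-/

set_option autoImplicit false

namespace Pool.Agent.PLX.H32

open Module

section scale

variable {A : Type} [AddCommGroup A] {E : Type} [NormedAddCommGroup E] [NormedSpace ℝ E]

/-- the balls of the multiple of the size -/
theorem bl_smul {f : A →+ E} {V : AddSubgroup A} (h : Dsc f V) {l : ℝ} (hl : 0 < l)
    (h' : Dsc (l • f) V) (r : ℝ) : bl (l • f) V r = bl f V (r / l) := by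
  ext x
  rw [mem_bl h, mem_bl h', AddMonoidHom.smul_apply, norm_smul, Real.norm_of_nonneg hl.le,
    le_div_iff₀ hl, mul_comm]

theorem dsc_smul {f : A →+ E} {V : AddSubgroup A} (h : Dsc f V) {l : ℝ} (hl : 0 < l) :
    Dsc (l • f) V := by
  intro r
  refine (h (r / l)).subset ?_
  rintro x ⟨h1, h2⟩
  refine ⟨h1, ?_⟩
  rw [AddMonoidHom.smul_apply, norm_smul, Real.norm_of_nonneg hl.le] at h2
  rw [le_div_iff₀ hl, mul_comm]
  exact h2

theorem bs_smul [Module ℚ A] {f : A →+ E} {V : AddSubgroup A} (h : Dsc f V) {l : ℝ} (hl : 0 < l) (r : ℝ) :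
    bs (l • f) V r = bs f V (r / l) := by
  unfold bs
  rw [bl_smul h hl (dsc_smul h hl)]

theorem cnt_smul {f : A →+ E} {V : AddSubgroup A} (h : Dsc f V) {l : ℝ} (hl : 0 < l) (r : ℝ) :
    cnt (l • f) V r = cnt f V (r / l) := by
  unfold cnt
  rw [bl_smul h hl (dsc_smul h hl)]

theorem ppr_smul {Φ : A →+ ℂ} {f : A →+ E} {V : AddSubgroup A} {l T : ℝ} (hl : 1 ≤ l)
    (h : Ppr Φ f V T) : Ppr Φ (l • f) V T := by
  intro x hx h1 h2
  refine h x hx (le_trans ?_ h1) h2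
  rw [AddMonoidHom.smul_apply, norm_smul, Real.norm_of_nonneg (by linarith)]
  have := norm_nonneg (f x)
  nlinarith

end scale

/-- one slope: the line itself -/
theorem lp_le_lz {A : Type} [AddCommGroup A] (Φ : A →+ ℂ) (G : AddSubgroup A) (t : ℝ) :
    lp Φ G t ≤ lz Φ G ⟨1, t⟩ := by
  intro x hx
  refine ⟨hx.1, (Φ x).re, ?_⟩
  apply Complex.ext
  · simp
  · simp [hx.2, mul_comm]

theorem one_t_ne_zero (t : ℝ) : (⟨1, t⟩ : ℂ) ≠ 0 := by
  intro h
  have := congrArg Complex.re h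
  simp at this

/-- the conclusion of BKS for one pair `e, b` -/
def Bk (e b c C : ℕ) : Prop :=
  ∀ (A : Type) [AddCommGroup A] [Module ℚ A] (E : Type)
    [NormedAddCommGroup E] [NormedSpace ℝ E] (Φ : A →+ ℂ) (f : A →+ E) (G : AddSubgroup A)
    (Θ : Finset ℝ) (L j ρ : ℝ), FiniteDimensional ℚ A → Dsc f G → finrank ℚ A = 2 * e →
      2 ≤ L → L ^ C ≤ j → Ppr Φ f G (L ^ C) → 0 < ρ → ρ ≤ 1 / L ^ c →
      (∀ t ∈ Θ, j ≤ cnt f (lp Φ G t) 1 ∧ finrank ℚ (bs f (lp Φ G t) ρ) = e ∧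
        bs f (lp Φ G t) 1 ≤ bs f (lp Φ G t) ρ) →
      (cnt f G 1 : ℝ) ≤ L ^ b * Θ.card * j ^ 2 →
      ∃ z : ℂ, z ≠ 0 ∧ (cnt f G 1 : ℝ) ≤ L ^ C * (cnt f (lz Φ G z) 1 : ℝ) ^ 2

theorem bk_exists (bks : BksStmt) (e b : ℕ) : ∃ c C : ℕ, 1 ≤ e → Bk e b c C := by
  by_cases he : 1 ≤ e
  · obtain ⟨c, C, h⟩ := bks e b he
    exact ⟨c, C, fun _ => h⟩
  · exact ⟨0, 0, fun h => absurd h he⟩

/-- **THS**. -/
theorem ths (cov : CovStmt) (dmn : DmnStmt) (dpl : DplStmt) (bks : BksStmt) : ThsStmt := by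
  intro d c
  obtain ⟨c₀, hc₀, hdmn⟩ := dmn d c (1 + 2 * d)
  obtain ⟨c₁, C₁, hbk⟩ := bk_exists bks (d / 2) (1 + 2 * d + 2 * d * c + 4 * d)
  obtain ⟨C₂, hdpl⟩ := dpl d c (1 + 2 * d)
  obtain ⟨C₃, hdmn'⟩ := hdmn (max c₀ (c + c₁)) (le_max_left _ _)
  refine ⟨max c₀ (c + c₁), lt_of_lt_of_le hc₀ (le_max_left _ _),
    3 + (1 + 2 * d) + (C₁ + (c + 2) * d) + C₂ + C₃, ?_⟩
  have hc' : c + c₁ ≤ max c₀ (c + c₁) := le_max_right _ _
  generalize max c₀ (c + c₁) = c' at hdmn' hc' ⊢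
  intro A _ _ E _ _ Φ f G Θ L j α hfd hD hd hL hj hP hbs hΘ hcnt
  have hL0 : (0 : ℝ) < L := by linarith
  have hL1 : (1 : ℝ) ≤ L := by linarith
  have hmono : ∀ {a b : ℕ}, a ≤ b → L ^ a ≤ L ^ b := fun h => pow_le_pow_right₀ hL1 h
  have hjp : ∀ {a : ℕ}, a ≤ 3 + (1 + 2 * d) + (C₁ + (c + 2) * d) + C₂ + C₃ → L ^ a ≤ j :=
    fun h => (hmono h).trans hj
  have hPp : ∀ {a : ℕ}, a ≤ 3 + (1 + 2 * d) + (C₁ + (c + 2) * d) + C₂ + C₃ →
      Ppr Φ f G (L ^ a) := fun h => hP.mono (hmono h)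
  have hj0 : 0 < j := lt_of_lt_of_le (pow_pos hL0 _) hj
  have hj2 : 2 ≤ j := by
    have h1 : L ^ 1 ≤ j := hjp (by omega)
    rw [pow_one] at h1
    linarith
  rcases Nat.lt_or_ge Θ.card 2 with h2 | h2
  · -- at most one slope
    rcases Finset.eq_empty_or_nonempty Θ with h3 | ⟨t, ht⟩
    · exfalso
      have h4 : (1 : ℝ) ≤ cnt f G 1 := by exact_mod_cast one_le_cnt hD zero_le_one
      rw [h3, Finset.card_empty, Nat.cast_zero, mul_zero, zero_mul] at hcnt
      linarith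
    · refine ⟨⟨1, t⟩, one_t_ne_zero t, ?_⟩
      have h3 : (Θ.card : ℝ) ≤ 1 := by
        have : Θ.card ≤ 1 := by omega
        exact_mod_cast this
      have h4 : j ≤ cnt f (lz Φ G ⟨1, t⟩) 1 :=
        (hΘ t ht).1.trans (by exact_mod_cast cnt_sub (hD.lz _) (lp_le_lz Φ G t))
      calc (cnt f G 1 : ℝ) ≤ L ^ (1 + 2 * d) * Θ.card * j ^ 2 := hcnt
        _ ≤ L ^ (1 + 2 * d) * 1 * j ^ 2 := by gcongr
        _ = L ^ (1 + 2 * d) * j ^ 2 := by ring
        _ ≤ L ^ (3 + (1 + 2 * d) + (C₁ + (c + 2) * d) + C₂ + C₃) *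
            (cnt f (lz Φ G ⟨1, t⟩) 1 : ℝ) ^ 2 := by
          refine mul_le_mul (hmono (by omega)) ?_ (by positivity) (by positivity)
          exact pow_le_pow_left₀ hj0.le h4 2
  · -- at least two slopes
    have h8 : (8 : ℝ) ≤ L ^ 3 := by
      calc (8 : ℝ) = 2 ^ 3 := by norm_num
        _ ≤ L ^ 3 := pow_le_pow_left₀ (by norm_num) hL 3
    have hd1 : d ≤ 2 * α := by
      refine hdmn' A E Φ f G Θ L j α hfd hD hd hL (hjp (by omega))
        ((hPp (a := 3) (by omega)).mono h8) hbs h2 ?_ hcnt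
      intro t ht
      obtain ⟨h3, h4, h5⟩ := hΘ t ht
      exact ⟨h3, h4 ▸ Submodule.finrank_mono h5⟩
    have hcc : c ≤ c' := by omega
    have hd2 : 2 * α ≤ d := by
      refine hdpl A E Φ f G Θ L j (1 / L ^ c') α hfd hD hd hL (hjp (by omega))
        (hPp (by omega)) (by positivity) ?_ h2 hΘ hcnt
      exact one_div_le_one_div_of_le (by positivity) (hmono hcc)
    have hdα : d = 2 * α := le_antisymm hd1 hd2
    have hde : d / 2 = α := by omega
    obtain ⟨t₀, ht₀⟩ : Θ.Nonempty := Finset.card_pos.1 (by omega)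
    rcases Nat.eq_zero_or_pos α with h0 | h0
    · exfalso
      have h3 : finrank ℚ A = 0 := by omega
      have h4 : Subsingleton A := Module.finrank_zero_iff.1 h3
      have h5 : cnt f (lp Φ G t₀) 1 ≤ 1 := Finset.card_le_one.2 fun a _ b _ => Subsingleton.elim a b
      have h6 := (hΘ t₀ ht₀).1
      have h7 : (cnt f (lp Φ G t₀) 1 : ℝ) ≤ 1 := by exact_mod_cast h5
      linarith
    · rw [hde] at hbk
      have hbk' := hbk h0
      unfold Bk at hbk'
      have hl0 : (0 : ℝ) < L ^ c := by positivity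
      have hl1 : (1 : ℝ) ≤ L ^ c := one_le_pow₀ hL1
      have h3L : (3 : ℝ) * L ^ c ≤ L ^ (c + 2) := by
        have h4 : (3 : ℝ) ≤ L ^ 2 := by nlinarith
        calc (3 : ℝ) * L ^ c ≤ L ^ 2 * L ^ c := by gcongr
          _ = L ^ (c + 2) := by rw [← pow_add, add_comm]
      have h3Ld : ((3 : ℝ) * L ^ c) ^ d ≤ L ^ ((c + 2) * d) := by
        calc ((3 : ℝ) * L ^ c) ^ d ≤ (L ^ (c + 2)) ^ d := pow_le_pow_left₀ (by positivity) h3L d
          _ = L ^ ((c + 2) * d) := (pow_mul _ _ _).symm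
      -- covering from the size `1` to the size `1 / L ^ c`
      have hcov : ∀ V : AddSubgroup A, Dsc f V →
          (cnt f V 1 : ℝ) ≤ (3 * L ^ c) ^ d * cnt (L ^ c • f) V 1 := by
        intro V hV
        have h4 := cov A E f V 1 (1 / L ^ c) d hV zero_le_one (by positivity)
          (hd ▸ Submodule.finrank_le _)
        rw [cnt_smul hV hl0]
        refine h4.trans ?_
        have h5 : 1 + 2 * 1 / (1 / L ^ c) ≤ 3 * L ^ c := by
          rw [mul_one, div_div_eq_mul_div, div_one]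
          linarith
        have h6 : (0 : ℝ) ≤ 1 + 2 * 1 / (1 / L ^ c) := by positivity
        exact mul_le_mul_of_nonneg_right (pow_le_pow_left₀ h6 h5 d) (Nat.cast_nonneg _)
      have h3p : (0 : ℝ) < (3 * L ^ c) ^ d := by positivity
      have hρ : L ^ c / L ^ c' / L ^ c = 1 / L ^ c' := by
        field_simp
      have key : ∃ z : ℂ, z ≠ 0 ∧ (cnt (L ^ c • f) G 1 : ℝ) ≤
          L ^ C₁ * (cnt (L ^ c • f) (lz Φ G z) 1 : ℝ) ^ 2 := by
        refine hbk' A E Φ (L ^ c • f) G Θ L (j / (3 * L ^ c) ^ d)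
          (L ^ c / L ^ c') hfd (dsc_smul hD hl0) (by omega) hL ?_
          (ppr_smul hl1 (hPp (by omega))) (by positivity) ?_ ?_ ?_
        · -- `L ^ C₁ ≤ j₁`
          rw [le_div_iff₀ h3p]
          calc L ^ C₁ * (3 * L ^ c) ^ d ≤ L ^ C₁ * L ^ ((c + 2) * d) := by gcongr
            _ = L ^ (C₁ + (c + 2) * d) := (pow_add _ _ _).symm
            _ ≤ j := hjp (by omega)
        · -- the small scale
          rw [div_le_div_iff₀ (by positivity) (by positivity), one_mul, ← pow_add]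
          exact hmono hc'
        · intro t ht
          obtain ⟨h4, h5, h6⟩ := hΘ t ht
          refine ⟨?_, ?_, ?_⟩
          · rw [div_le_iff₀ h3p, mul_comm]
            exact h4.trans (hcov _ (hD.lp t))
          · rw [bs_smul (hD.lp t) hl0, hρ]
            exact h5
          · rw [bs_smul (hD.lp t) hl0, bs_smul (hD.lp t) hl0, hρ]
            exact h6
        · have h4 : (cnt (L ^ c • f) G 1 : ℝ) ≤ cnt f G 1 := by
            rw [cnt_smul hD hl0]
            have h6 : 1 / L ^ c ≤ 1 := by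
              rw [div_le_one hl0]
              exact hl1
            exact_mod_cast cnt_mono hD h6
          have h5 : j = (3 * L ^ c) ^ d * (j / (3 * L ^ c) ^ d) :=
            (mul_div_cancel₀ j h3p.ne').symm
          have h6 : 0 ≤ j / (3 * L ^ c) ^ d := by positivity
          generalize j / (3 * L ^ c) ^ d = j₁ at h5 h6 ⊢
          calc (cnt (L ^ c • f) G 1 : ℝ) ≤ cnt f G 1 := h4
            _ ≤ L ^ (1 + 2 * d) * Θ.card * j ^ 2 := hcnt
            _ = L ^ (1 + 2 * d) * Θ.card * (((3 * L ^ c) ^ d) ^ 2 * j₁ ^ 2) := by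
              rw [h5, mul_pow]
            _ ≤ L ^ (1 + 2 * d) * Θ.card * ((L ^ ((c + 2) * d)) ^ 2 * j₁ ^ 2) :=
              mul_le_mul_of_nonneg_left (mul_le_mul_of_nonneg_right
                (pow_le_pow_left₀ h3p.le h3Ld 2) (sq_nonneg _))
                (mul_nonneg (pow_nonneg hL0.le _) (Nat.cast_nonneg _))
            _ = L ^ (1 + 2 * d + 2 * d * c + 4 * d) * Θ.card * j₁ ^ 2 := by
              rw [← pow_mul]
              ring
      obtain ⟨z, hz, hz2⟩ := key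
      refine ⟨z, hz, ?_⟩
      have h4 := hcov G hD
      have h5 : (cnt (L ^ c • f) (lz Φ G z) 1 : ℝ) ≤ cnt f (lz Φ G z) 1 := by
        rw [cnt_smul (hD.lz z) hl0]
        have h6 : 1 / L ^ c ≤ 1 := by
          rw [div_le_one hl0]
          exact hl1
        exact_mod_cast cnt_mono (hD.lz z) h6
      calc (cnt f G 1 : ℝ) ≤ (3 * L ^ c) ^ d * cnt (L ^ c • f) G 1 := h4
        _ ≤ L ^ ((c + 2) * d) * (L ^ C₁ * (cnt (L ^ c • f) (lz Φ G z) 1 : ℝ) ^ 2) :=
          mul_le_mul h3Ld hz2 (Nat.cast_nonneg _) (by positivity)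
        _ ≤ L ^ ((c + 2) * d) * (L ^ C₁ * (cnt f (lz Φ G z) 1 : ℝ) ^ 2) := by gcongr
        _ = L ^ (C₁ + (c + 2) * d) * (cnt f (lz Φ G z) 1 : ℝ) ^ 2 := by
          rw [pow_add]
          ring
        _ ≤ _ := by
          refine mul_le_mul_of_nonneg_right (hmono ?_) (by positivity)
          omega

end Pool.Agent.PLX.H32
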